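import Mathlib

/-!
# Polynomials with small differences at both ends and a large sum
-/

set_option autoImplicit false

open Finset

namespace Pool.Agent.X109.GK

/-- the sum over `t < n` -/
noncomputable def S (f : ℕ → ℕ → ℝ) (n : ℕ) : ℝ := ∑ t ∈ range n, f n t

/-- the normalising sum -/
noncomputable def Z (d n : ℕ) : ℝ := ∑ t ∈ range n, (t : ℝ) ^ d * ((n : ℝ) - t) ^ d

/-- polynomial growth -/
def Poly (f : ℕ → ℕ → ℝ) : Prop :=
  ∃ (C : ℝ) (K : ℕ), 0 ≤ C ∧ ∀ n t : ℕ, |f n t| ≤ C * (1 + n + t : ℝ) ^ K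

theorem Z_ge {d n : ℕ} (hn : 2 ≤ n) : ((n : ℝ) / 3) ^ (2 * d) ≤ Z d n := by
  unfold Z
  have h0 : ∀ t ∈ range n, 0 ≤ (t : ℝ) ^ d * ((n : ℝ) - t) ^ d := by
    intro t ht
    have : (t : ℝ) ≤ n := by exact_mod_cast (mem_range.1 ht).le
    have h1 : (0 : ℝ) ≤ (n : ℝ) - t := by linarith
    positivity
  have hmem : n / 2 ∈ range n := by rw [mem_range]; omega
  refine le_trans ?_ (single_le_sum h0 hmem)
  have h1 : (n : ℝ) / 3 ≤ ((n / 2 : ℕ) : ℝ) := by
    have : n ≤ 3 * (n / 2) := by omega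
    have h2 : (n : ℝ) ≤ 3 * ((n / 2 : ℕ) : ℝ) := by exact_mod_cast this
    linarith
  have h2 : (n : ℝ) / 3 ≤ (n : ℝ) - ((n / 2 : ℕ) : ℝ) := by
    have : 2 * (n / 2) ≤ n := by omega
    have h3 : 2 * ((n / 2 : ℕ) : ℝ) ≤ (n : ℝ) := by exact_mod_cast this
    have h4 : (0 : ℝ) ≤ n := by positivity
    linarith
  have h3 : (0 : ℝ) ≤ (n : ℝ) / 3 := by positivity
  rw [two_mul, pow_add]
  exact mul_le_mul (pow_le_pow_left₀ h3 h1 d) (pow_le_pow_left₀ h3 h2 d) (by positivity)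
    (by positivity)

theorem Z_nonneg (d n : ℕ) : 0 ≤ Z d n := by
  unfold Z
  apply sum_nonneg
  intro t ht
  have : (t : ℝ) ≤ n := by exact_mod_cast (mem_range.1 ht).le
  have h1 : (0 : ℝ) ≤ (n : ℝ) - t := by linarith
  positivity

theorem Z_pos {d n : ℕ} (hn : 2 ≤ n) : 0 < Z d n := by
  refine lt_of_lt_of_le ?_ (Z_ge hn)
  have : (0 : ℝ) < n := by exact_mod_cast (by omega : 0 < n)
  positivity

/-- the bump polynomial with prescribed sum -/
noncomputable def φ (f : ℕ → ℕ → ℝ) (d n s : ℕ) : ℝ :=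
  S f n / Z d n * ((s : ℝ) ^ d * ((n : ℝ) - s) ^ d)

theorem sum_φ (f : ℕ → ℕ → ℝ) {d n : ℕ} (hn : 2 ≤ n) : ∑ s ∈ range n, φ f d n s = S f n := by
  unfold φ
  rw [← mul_sum]
  exact div_mul_cancel₀ _ (Z_pos hn).ne'

open Polynomial in
theorem diff_φ_zero (f : ℕ → ℕ → ℝ) (d n i : ℕ) (hi : 2 * d < i) (y : ℕ) :
    ((fwdDiff (1 : ℕ))^[i] (φ f d n)) y = 0 := by
  set P : ℝ[X] := C (S f n / Z d n) * (X ^ d * (C (n : ℝ) - X) ^ d) with hP
  have hdeg : P.natDegree < i := by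
    refine lt_of_le_of_lt ?_ hi
    refine (natDegree_C_mul_le _ _).trans ?_
    refine natDegree_mul_le.trans ?_
    have h1 : (X ^ d : ℝ[X]).natDegree ≤ d := natDegree_X_pow_le d
    have h2 : ((C (n : ℝ) - X) ^ d : ℝ[X]).natDegree ≤ d := by
      refine natDegree_pow_le.trans ?_
      have : (C (n : ℝ) - X : ℝ[X]).natDegree ≤ 1 := by
        refine (natDegree_sub_le _ _).trans ?_
        rw [natDegree_C, natDegree_X]
        norm_num
      nlinarith
    omega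
  have hz := congrFun (Polynomial.fwdDiff_iter_eq_zero_of_degree_lt hdeg) (y : ℝ)
  rw [fwdDiff_iter_eq_sum_shift] at hz ⊢
  rw [Pi.zero_apply] at hz
  rw [← hz]
  apply sum_congr rfl
  intro k _
  congr 1
  rw [hP]
  simp only [φ, eval_mul, eval_C, eval_pow, eval_X, eval_sub, smul_eq_mul, mul_one, nsmul_eq_mul]
  push_cast
  ring

theorem diff_bound (g : ℕ → ℝ) (i y : ℕ) (B : ℝ) (hB : ∀ k ≤ i, |g (y + k)| ≤ B) :
    |((fwdDiff (1 : ℕ))^[i] g) y| ≤ 2 ^ i * B := by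
  rw [fwdDiff_iter_eq_sum_shift]
  refine (abs_sum_le_sum_abs _ _).trans ?_
  have h1 : ∀ k ∈ range (i + 1), |((-1 : ℤ) ^ (i - k) * (i.choose k : ℤ)) • g (y + k • 1)| ≤
      (i.choose k : ℝ) * B := by
    intro k hk
    rw [zsmul_eq_mul, abs_mul]
    have h2 : |(((-1 : ℤ) ^ (i - k) * (i.choose k : ℤ) : ℤ) : ℝ)| = (i.choose k : ℝ) := by
      push_cast
      rw [abs_mul, abs_pow, abs_neg, abs_one, one_pow, one_mul, Nat.abs_cast]
    rw [h2, smul_eq_mul, mul_one]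
    exact mul_le_mul_of_nonneg_left (hB k (Nat.lt_succ_iff.1 (mem_range.1 hk))) (by positivity)
  refine (sum_le_sum h1).trans ?_
  rw [← sum_mul]
  have : (∑ k ∈ range (i + 1), (i.choose k : ℝ)) = 2 ^ i := by
    have := Nat.sum_range_choose i
    exact_mod_cast this
  rw [this]

/-- the differences of the bump at both ends are small -/
theorem exists_N {f : ℕ → ℕ → ℝ} {C : ℝ} {K : ℕ} (hC : 0 ≤ C)
    (hS : ∀ n : ℕ, |S f n| ≤ C * (1 + n : ℝ) ^ K) {ε : ℝ} (hε : 0 < ε) :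
    ∃ N : ℕ, 2 ≤ N ∧ ∀ n, N ≤ n → ∀ i, |((fwdDiff (1 : ℕ))^[i] (φ f (K + 1) n)) 0| ≤ ε ∧
      |((fwdDiff (1 : ℕ))^[i] (φ f (K + 1) n)) n| ≤ ε := by
  set d := K + 1 with hd
  set D : ℝ := 2 ^ (2 * d) * (C * 2 ^ K * 3 ^ (2 * d) * ((2 * d : ℝ) ^ d * 2 ^ d)) with hD
  have hD0 : 0 ≤ D := by positivity
  refine ⟨max (2 * d) (⌈D / ε⌉₊ + 1), ?_, fun n hn => ?_⟩
  · exact le_trans (by omega) (le_max_left _ _)
  have hn1 : 2 * d ≤ n := (le_max_left _ _).trans hn
  have hn2 : ⌈D / ε⌉₊ + 1 ≤ n := (le_max_right _ _).trans hn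
  have hn0 : 2 ≤ n := by omega
  have hnr : (0 : ℝ) < n := by exact_mod_cast (by omega : 0 < n)
  have hDn : D / n ≤ ε := by
    rw [div_le_iff₀ hnr]
    have h1 : D / ε ≤ n := (Nat.le_ceil _).trans (by exact_mod_cast (by omega : ⌈D / ε⌉₊ ≤ n))
    rw [div_le_iff₀ hε] at h1
    linarith
  -- the value bound
  have hval : ∀ y k : ℕ, (y = 0 ∨ y = n) → k ≤ 2 * d →
      |φ f d n (y + k)| ≤ C * 2 ^ K * 3 ^ (2 * d) * ((2 * d : ℝ) ^ d * 2 ^ d) / n := by
    intro y k hy hk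
    have hkr : (k : ℝ) ≤ 2 * d := by exact_mod_cast hk
    have hk2 : (k : ℝ) ≤ n := by exact_mod_cast hk.trans hn1
    have hprod : |((y + k : ℕ) : ℝ) ^ d * ((n : ℝ) - ((y + k : ℕ) : ℝ)) ^ d| ≤
        (2 * d : ℝ) ^ d * (2 * n : ℝ) ^ d := by
      rcases hy with hy | hy
      · rw [hy, zero_add, abs_mul, abs_pow, abs_pow, Nat.abs_cast]
        apply mul_le_mul (pow_le_pow_left₀ (by positivity) hkr d) _ (by positivity) (by positivity)
        apply pow_le_pow_left₀ (abs_nonneg _)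
        rw [abs_of_nonneg (by linarith)]
        have : (0 : ℝ) ≤ k := by positivity
        linarith
      · have e1 : ((n : ℝ) - ((n + k : ℕ) : ℝ)) = -(k : ℝ) := by push_cast; ring
        rw [hy, e1, abs_mul, abs_pow, abs_pow, Nat.abs_cast, abs_neg, Nat.abs_cast, mul_comm]
        apply mul_le_mul (pow_le_pow_left₀ (by positivity) hkr d) _ (by positivity) (by positivity)
        apply pow_le_pow_left₀ (by positivity)
        push_cast
        linarith
    have hc : |S f n / Z d n| ≤ C * (2 ^ K * n ^ K) * 3 ^ (2 * d) / n ^ (2 * d) := by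
      rw [abs_div, abs_of_nonneg (Z_nonneg d n)]
      have h1 : |S f n| ≤ C * (2 ^ K * n ^ K) := by
        refine (hS n).trans ?_
        apply mul_le_mul_of_nonneg_left _ hC
        rw [← mul_pow]
        apply pow_le_pow_left₀ (by positivity)
        have : (1 : ℝ) ≤ n := by exact_mod_cast (by omega : 1 ≤ n)
        linarith
      have h2 := Z_ge (d := d) hn0
      rw [div_pow] at h2
      rw [div_le_iff₀ (Z_pos hn0)]
      have h3 : C * (2 ^ K * n ^ K) * 3 ^ (2 * d) / n ^ (2 * d) * (n ^ (2 * d) / 3 ^ (2 * d)) =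
          C * (2 ^ K * n ^ K) := by
        have h4 : (n : ℝ) ^ (2 * d) ≠ 0 := by positivity
        field_simp
      calc |S f n| ≤ C * (2 ^ K * n ^ K) := h1
        _ = C * (2 ^ K * n ^ K) * 3 ^ (2 * d) / n ^ (2 * d) * (n ^ (2 * d) / 3 ^ (2 * d)) := h3.symm
        _ ≤ _ := mul_le_mul_of_nonneg_left h2 (by positivity)
    unfold φ
    rw [abs_mul]
    calc |S f n / Z d n| * |((y + k : ℕ) : ℝ) ^ d * ((n : ℝ) - ((y + k : ℕ) : ℝ)) ^ d|
        ≤ C * (2 ^ K * n ^ K) * 3 ^ (2 * d) / n ^ (2 * d) * ((2 * d : ℝ) ^ d * (2 * n : ℝ) ^ d) :=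
          mul_le_mul hc hprod (abs_nonneg _) (by positivity)
      _ = C * 2 ^ K * 3 ^ (2 * d) * ((2 * d : ℝ) ^ d * 2 ^ d) / n := by
          have h5 : (n : ℝ) ≠ 0 := hnr.ne'
          rw [mul_pow (2 : ℝ) (n : ℝ) d]
          have h6 : (n : ℝ) ^ (2 * d) = n ^ K * n ^ d * n := by
            rw [← pow_add, ← pow_succ]
            congr 1
            omega
          rw [h6]
          field_simp
  have hmain : ∀ y i : ℕ, (y = 0 ∨ y = n) → |((fwdDiff (1 : ℕ))^[i] (φ f d n)) y| ≤ ε := by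
    intro y i hy
    by_cases hi : 2 * d < i
    · rw [diff_φ_zero f d n i hi y, abs_zero]
      exact hε.le
    · rw [not_lt] at hi
      have h1 := diff_bound (φ f d n) i y _ (fun k hk => hval y k hy (hk.trans hi))
      refine h1.trans (le_trans ?_ hDn)
      rw [hD, ← mul_div_assoc]
      apply div_le_div_of_nonneg_right _ hnr.le
      apply mul_le_mul_of_nonneg_right _ (by positivity)
      exact pow_le_pow_right₀ (by norm_num) hi
  intro i
  exact ⟨hmain 0 i (Or.inl rfl), hmain n i (Or.inr rfl)⟩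

end Pool.Agent.X109.GK
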