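import Pool.Agent.X109.GK.A

/-!
# The basis and the test functions
-/

set_option autoImplicit false

open Finset

namespace Pool.Agent.X109.GK

/-- the index set of the basis -/
inductive B : Type where
  | root : B
  | y : B → ℕ → B
  | w : B → ℕ → ℕ → B
  deriving Countable

open Classical in
/-- the exponent of the bump -/
noncomputable def dd (f : ℕ → ℕ → ℝ) : ℕ :=
  if h : ∃ K : ℕ, ∃ C : ℝ, 0 ≤ C ∧ ∀ n : ℕ, |S f n| ≤ C * (1 + n : ℝ) ^ K then h.choose + 1 else 1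

open Classical in
/-- the threshold -/
noncomputable def nn (f : ℕ → ℕ → ℝ) (j : ℕ) : ℕ :=
  if h : ∃ N : ℕ, 2 ≤ N ∧ ∀ n, N ≤ n → ∀ i, |((fwdDiff (1 : ℕ))^[i] (φ f (dd f) n)) 0| ≤ (1 / 2) ^ j ∧
      |((fwdDiff (1 : ℕ))^[i] (φ f (dd f) n)) n| ≤ (1 / 2) ^ j then h.choose else 2

/-- the truncated bump -/
noncomputable def ψ (f : ℕ → ℕ → ℝ) (j n : ℕ) : ℕ → ℝ := if nn f j ≤ n then φ f (dd f) n else 0

/-- the bound for the small times -/
noncomputable def Λ (f : ℕ → ℕ → ℝ) (j : ℕ) : ℝ := ∑ n ∈ range (nn f j), |S f n|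

/-- the test functions -/
noncomputable def F : B → ℕ → ℕ → ℝ
  | .root => fun _ _ => 1
  | .y v j => fun n s => ∑ t ∈ range s, (F v n t - ψ (F v) j n t)
  | .w v j i => fun n s => ((fwdDiff (1 : ℕ))^[i] (ψ (F v) j n)) s

/-- the norms of the basis vectors -/
noncomputable def W : B → ℝ
  | .root => 1
  | .y v j => W v + (1 / 2) ^ j + Λ (F v) j
  | .w _ j _ => (1 / 2) ^ j

theorem Λ_nonneg (f : ℕ → ℕ → ℝ) (j : ℕ) : 0 ≤ Λ f j := sum_nonneg (fun _ _ => abs_nonneg _)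

theorem W_pos (b : B) : 0 < W b := by
  induction b with
  | root => exact one_pos
  | y v j ih =>
    have := Λ_nonneg (F v) j
    have h2 : (0 : ℝ) < (1 / 2) ^ j := by positivity
    show 0 < W v + (1 / 2) ^ j + Λ (F v) j
    linarith
  | w v j i ih => show (0 : ℝ) < (1 / 2) ^ j; positivity

theorem two_le_nn (f : ℕ → ℕ → ℝ) (j : ℕ) : 2 ≤ nn f j := by
  unfold nn
  split_ifs with h
  · exact h.choose_spec.1
  · exact le_rfl

theorem S_bound {f : ℕ → ℕ → ℝ} (hf : Poly f) :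
    ∃ K : ℕ, ∃ C : ℝ, 0 ≤ C ∧ ∀ n : ℕ, |S f n| ≤ C * (1 + n : ℝ) ^ K := by
  obtain ⟨C, K, hC, h⟩ := hf
  refine ⟨K + 1, C * 2 ^ K, by positivity, fun n => ?_⟩
  unfold S
  refine (abs_sum_le_sum_abs _ _).trans ?_
  have h1 : ∀ t ∈ range n, |f n t| ≤ C * 2 ^ K * (1 + n : ℝ) ^ K := by
    intro t ht
    refine (h n t).trans ?_
    rw [mul_assoc, ← mul_pow]
    apply mul_le_mul_of_nonneg_left _ hC
    apply pow_le_pow_left₀ (by positivity)
    have : (t : ℝ) ≤ n := by exact_mod_cast (mem_range.1 ht).le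
    linarith
  refine (sum_le_sum h1).trans ?_
  rw [sum_const, card_range, nsmul_eq_mul, pow_succ]
  have h2 : (0 : ℝ) ≤ C * 2 ^ K * (1 + n : ℝ) ^ K := by positivity
  nlinarith

theorem dd_spec {f : ℕ → ℕ → ℝ} (hf : Poly f) :
    ∃ K : ℕ, dd f = K + 1 ∧ ∃ C : ℝ, 0 ≤ C ∧ ∀ n : ℕ, |S f n| ≤ C * (1 + n : ℝ) ^ K := by
  have h := S_bound hf
  refine ⟨h.choose, ?_, h.choose_spec⟩
  unfold dd
  rw [dif_pos h]

theorem nn_spec {f : ℕ → ℕ → ℝ} (hf : Poly f) (j : ℕ) :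
    ∀ n, nn f j ≤ n → ∀ i, |((fwdDiff (1 : ℕ))^[i] (φ f (dd f) n)) 0| ≤ (1 / 2) ^ j ∧
      |((fwdDiff (1 : ℕ))^[i] (φ f (dd f) n)) n| ≤ (1 / 2) ^ j := by
  have h : ∃ N : ℕ, 2 ≤ N ∧ ∀ n, N ≤ n → ∀ i, |((fwdDiff (1 : ℕ))^[i] (φ f (dd f) n)) 0| ≤ (1 / 2) ^ j ∧
      |((fwdDiff (1 : ℕ))^[i] (φ f (dd f) n)) n| ≤ (1 / 2) ^ j := by
    obtain ⟨K, hK, C, hC, hS⟩ := dd_spec hf
    rw [hK]
    exact exists_N hC hS (by positivity)
  have h1 := h.choose_spec
  unfold nn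
  rw [dif_pos h]
  exact h1.2

theorem one_le_Z {d n : ℕ} (hn : 2 ≤ n) : 1 ≤ Z d n := by
  unfold Z
  have h0 : ∀ t ∈ range n, 0 ≤ (t : ℝ) ^ d * ((n : ℝ) - t) ^ d := by
    intro t ht
    have : (t : ℝ) ≤ n := by exact_mod_cast (mem_range.1 ht).le
    have h1 : (0 : ℝ) ≤ (n : ℝ) - t := by linarith
    positivity
  refine le_trans ?_ (single_le_sum h0 (mem_range.2 (by omega : 1 < n)))
  rw [Nat.cast_one, one_pow, one_mul]
  apply one_le_pow₀
  have : (2 : ℝ) ≤ n := by exact_mod_cast hn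
  linarith

theorem poly_sub {f g : ℕ → ℕ → ℝ} (hf : Poly f) (hg : Poly g) : Poly (fun n s => f n s - g n s) := by
  obtain ⟨C, K, hC, h⟩ := hf
  obtain ⟨C', K', hC', h'⟩ := hg
  refine ⟨C + C', K + K', by positivity, fun n t => ?_⟩
  have h1 : (1 : ℝ) ≤ 1 + n + t := by
    have : (0 : ℝ) ≤ n := by positivity
    have : (0 : ℝ) ≤ t := by positivity
    linarith
  have h2 : (1 + n + t : ℝ) ^ K ≤ (1 + n + t : ℝ) ^ (K + K') := pow_le_pow_right₀ h1 (by omega)
  have h3 : (1 + n + t : ℝ) ^ K' ≤ (1 + n + t : ℝ) ^ (K + K') := pow_le_pow_right₀ h1 (by omega)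
  calc |f n t - g n t| ≤ |f n t| + |g n t| := abs_sub _ _
    _ ≤ C * (1 + n + t : ℝ) ^ K + C' * (1 + n + t : ℝ) ^ K' := add_le_add (h n t) (h' n t)
    _ ≤ C * (1 + n + t : ℝ) ^ (K + K') + C' * (1 + n + t : ℝ) ^ (K + K') :=
        add_le_add (mul_le_mul_of_nonneg_left h2 hC) (mul_le_mul_of_nonneg_left h3 hC')
    _ = _ := by ring

theorem poly_sum {f : ℕ → ℕ → ℝ} (hf : Poly f) : Poly (fun n s => ∑ t ∈ range s, f n t) := by
  obtain ⟨C, K, hC, h⟩ := hf
  refine ⟨C, K + 1, hC, fun n s => ?_⟩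
  refine (abs_sum_le_sum_abs _ _).trans ?_
  have h1 : ∀ t ∈ range s, |f n t| ≤ C * (1 + n + s : ℝ) ^ K := by
    intro t ht
    refine (h n t).trans ?_
    apply mul_le_mul_of_nonneg_left _ hC
    apply pow_le_pow_left₀ (by positivity)
    have : (t : ℝ) ≤ s := by exact_mod_cast (mem_range.1 ht).le
    linarith
  refine (sum_le_sum h1).trans ?_
  rw [sum_const, card_range, nsmul_eq_mul, pow_succ]
  have h2 : (0 : ℝ) ≤ C * (1 + n + s : ℝ) ^ K := by positivity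
  have h3 : (0 : ℝ) ≤ n := by positivity
  nlinarith

theorem poly_diff {f : ℕ → ℕ → ℝ} (hf : Poly f) (i : ℕ) :
    Poly (fun n s => ((fwdDiff (1 : ℕ))^[i] (f n)) s) := by
  induction i with
  | zero => simpa using hf
  | succ i ih =>
    obtain ⟨C, K, hC, h⟩ := ih
    refine ⟨2 * C * 2 ^ K, K, by positivity, fun n s => ?_⟩
    show |((fwdDiff (1 : ℕ))^[i + 1] (f n)) s| ≤ _
    rw [Function.iterate_succ_apply', fwdDiff]
    have h1 : |((fwdDiff (1 : ℕ))^[i] (f n)) (s + 1)| ≤ C * (1 + n + (s + 1 : ℕ) : ℝ) ^ K :=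
      h n (s + 1)
    have h2 : |((fwdDiff (1 : ℕ))^[i] (f n)) s| ≤ C * (1 + n + s : ℝ) ^ K := h n s
    have h3 : (1 + n + (s + 1 : ℕ) : ℝ) ^ K ≤ 2 ^ K * (1 + n + s : ℝ) ^ K := by
      rw [← mul_pow]
      apply pow_le_pow_left₀ (by positivity)
      push_cast
      have : (0 : ℝ) ≤ n := by positivity
      have : (0 : ℝ) ≤ s := by positivity
      linarith
    have h4 : (1 + n + s : ℝ) ^ K ≤ 2 ^ K * (1 + n + s : ℝ) ^ K := by
      have : (1 : ℝ) ≤ 2 ^ K := one_le_pow₀ (by norm_num)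
      have h5 : (0 : ℝ) ≤ (1 + n + s : ℝ) ^ K := by positivity
      nlinarith
    calc |((fwdDiff (1 : ℕ))^[i] (f n)) (s + 1) - ((fwdDiff (1 : ℕ))^[i] (f n)) s|
        ≤ |((fwdDiff (1 : ℕ))^[i] (f n)) (s + 1)| + |((fwdDiff (1 : ℕ))^[i] (f n)) s| := abs_sub _ _
      _ ≤ C * (2 ^ K * (1 + n + s : ℝ) ^ K) + C * (2 ^ K * (1 + n + s : ℝ) ^ K) :=
          add_le_add (h1.trans (mul_le_mul_of_nonneg_left h3 hC))
            (h2.trans (mul_le_mul_of_nonneg_left h4 hC))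
      _ = _ := by ring

theorem poly_ψ {f : ℕ → ℕ → ℝ} (hf : Poly f) (j : ℕ) : Poly (fun n s => ψ f j n s) := by
  obtain ⟨K, C, hC, h⟩ := S_bound hf
  set d := dd f
  refine ⟨C, K + 2 * d, hC, fun n s => ?_⟩
  have h1 : (1 : ℝ) ≤ 1 + n + s := by
    have : (0 : ℝ) ≤ n := by positivity
    have : (0 : ℝ) ≤ s := by positivity
    linarith
  show |ψ f j n s| ≤ _
  unfold ψ
  split_ifs with hn
  · have hn2 : 2 ≤ n := (two_le_nn f j).trans hn
    unfold φ
    rw [abs_mul, abs_div, abs_of_nonneg (Z_nonneg _ n)]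
    have h2 : |S f n| / Z (dd f) n ≤ C * (1 + n + s : ℝ) ^ K := by
      refine (div_le_self (abs_nonneg _) (one_le_Z hn2)).trans ((h n).trans ?_)
      apply mul_le_mul_of_nonneg_left _ hC
      apply pow_le_pow_left₀ (by positivity)
      have : (0 : ℝ) ≤ s := by positivity
      linarith
    have h3 : |(s : ℝ) ^ d * ((n : ℝ) - s) ^ d| ≤ (1 + n + s : ℝ) ^ (2 * d) := by
      rw [abs_mul, abs_pow, abs_pow, two_mul, pow_add, Nat.abs_cast]
      apply mul_le_mul _ _ (by positivity) (by positivity)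
      · apply pow_le_pow_left₀ (by positivity)
        have : (0 : ℝ) ≤ n := by positivity
        linarith
      · apply pow_le_pow_left₀ (abs_nonneg _)
        rw [abs_le]
        have : (0 : ℝ) ≤ n := by positivity
        have : (0 : ℝ) ≤ s := by positivity
        constructor <;> linarith
    calc |S f n| / Z (dd f) n * |(s : ℝ) ^ d * ((n : ℝ) - s) ^ d|
        ≤ C * (1 + n + s : ℝ) ^ K * (1 + n + s : ℝ) ^ (2 * d) :=
          mul_le_mul h2 h3 (abs_nonneg _) (by positivity)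
      _ = C * (1 + n + s : ℝ) ^ (K + 2 * d) := by rw [pow_add]; ring
  · rw [Pi.zero_apply, abs_zero]
    positivity

theorem poly_F (b : B) : Poly (F b) := by
  induction b with
  | root => exact ⟨1, 0, zero_le_one, fun n t => by simp [F]⟩
  | y v j ih =>
    have := poly_sum (poly_sub ih (poly_ψ ih j))
    exact this
  | w v j i ih => exact poly_diff (poly_ψ ih j) i

theorem iterate_zero' (i s : ℕ) : ((fwdDiff (1 : ℕ))^[i] (0 : ℕ → ℝ)) s = 0 := by
  induction i generalizing s with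
  | zero => rfl
  | succ i ih => rw [Function.iterate_succ_apply', fwdDiff, ih, ih, sub_zero]

/-- the two families of functionals have norm at most one -/
theorem F_le (b : B) (n : ℕ) : |F b n 0| ≤ W b ∧ |F b n n| ≤ W b := by
  cases b with
  | root =>
    show |(1 : ℝ)| ≤ 1 ∧ |(1 : ℝ)| ≤ 1
    rw [abs_one]
    exact ⟨le_rfl, le_rfl⟩
  | y v j =>
    have hL := Λ_nonneg (F v) j
    have h2 : (0 : ℝ) < (1 / 2) ^ j := by positivity
    have hv := W_pos v
    refine ⟨?_, ?_⟩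
    · have : F (.y v j) n 0 = 0 := by show ∑ t ∈ range 0, _ = _; rw [range_zero, sum_empty]
      rw [this, abs_zero]
      exact (W_pos _).le
    · show |∑ t ∈ range n, (F v n t - ψ (F v) j n t)| ≤ W v + (1 / 2) ^ j + Λ (F v) j
      rw [sum_sub_distrib]
      by_cases hn : nn (F v) j ≤ n
      · have hψ : ψ (F v) j n = φ (F v) (dd (F v)) n := by unfold ψ; rw [if_pos hn]
        rw [hψ, sum_φ _ ((two_le_nn _ _).trans hn)]
        unfold S
        rw [sub_self, abs_zero]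
        linarith
      · have hψ : ψ (F v) j n = 0 := by unfold ψ; rw [if_neg hn]
        rw [hψ]
        simp only [Pi.zero_apply, sum_const_zero, sub_zero]
        have h3 : |S (F v) n| ≤ Λ (F v) j :=
          single_le_sum (f := fun n => |S (F v) n|) (fun _ _ => abs_nonneg _)
            (mem_range.2 (not_le.1 hn))
        unfold S at h3
        linarith
  | w v j i =>
    show |((fwdDiff (1 : ℕ))^[i] (ψ (F v) j n)) 0| ≤ (1 / 2) ^ j ∧
      |((fwdDiff (1 : ℕ))^[i] (ψ (F v) j n)) n| ≤ (1 / 2) ^ j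
    by_cases hn : nn (F v) j ≤ n
    · have hψ : ψ (F v) j n = φ (F v) (dd (F v)) n := by unfold ψ; rw [if_pos hn]
      rw [hψ]
      exact nn_spec (poly_F v) j n hn i
    · have hψ : ψ (F v) j n = 0 := by unfold ψ; rw [if_neg hn]
      rw [hψ, iterate_zero', iterate_zero', abs_zero]
      constructor <;> positivity

theorem F_root (n s : ℕ) : F .root n s = 1 := rfl

theorem F_y (v : B) (j n s : ℕ) :
    F (.y v j) n (s + 1) = F (.y v j) n s + (F v n s - F (.w v j 0) n s) := by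
  show ∑ t ∈ range (s + 1), (F v n t - ψ (F v) j n t) =
    ∑ t ∈ range s, (F v n t - ψ (F v) j n t) + (F v n s - ψ (F v) j n s)
  rw [sum_range_succ]

theorem F_w (v : B) (j i n s : ℕ) :
    F (.w v j i) n (s + 1) = F (.w v j i) n s + F (.w v j (i + 1)) n s := by
  show ((fwdDiff (1 : ℕ))^[i] (ψ (F v) j n)) (s + 1) = ((fwdDiff (1 : ℕ))^[i] (ψ (F v) j n)) s +
    ((fwdDiff (1 : ℕ))^[i + 1] (ψ (F v) j n)) s
  rw [Function.iterate_succ_apply', fwdDiff]
  ring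

theorem F_w_zero (v : B) (j i n s : ℕ) (hi : 2 * dd (F v) < i) : F (.w v j i) n s = 0 := by
  show ((fwdDiff (1 : ℕ))^[i] (ψ (F v) j n)) s = 0
  by_cases hn : nn (F v) j ≤ n
  · have hψ : ψ (F v) j n = φ (F v) (dd (F v)) n := by unfold ψ; rw [if_pos hn]
    rw [hψ]
    exact diff_φ_zero _ _ _ _ hi s
  · have hψ : ψ (F v) j n = 0 := by unfold ψ; rw [if_neg hn]
    rw [hψ, iterate_zero']

end Pool.Agent.X109.GK
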