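import Pool.Agent.X109.GK.B

/-!
# The operator on `ℓ₁`
-/

set_option autoImplicit false

open Filter Topology

namespace Pool.Agent.X109.GK

section lift

variable {𝕜 : Type} [RCLike 𝕜] {ι : Type} {E : Type} [NormedAddCommGroup E] [NormedSpace 𝕜 E]
  [CompleteSpace E]

theorem norm_l1 (x : lp (fun _ : ι => 𝕜) 1) : ‖x‖ = ∑' i, ‖x i‖ := by
  rw [lp.norm_eq_tsum_rpow (by norm_num)]
  simp

theorem summable_l1 (x : lp (fun _ : ι => 𝕜) 1) : Summable (fun i => ‖x i‖) := by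
  simpa using (lp.memℓp x).summable (by norm_num)

omit [CompleteSpace E] in
theorem summable_norm_smul (u : ι → E) (hu : ∀ i, ‖u i‖ ≤ 1) (x : lp (fun _ : ι => 𝕜) 1) :
    Summable (fun i => ‖x i • u i‖) := by
  apply Summable.of_nonneg_of_le (fun i => norm_nonneg _) _ (summable_l1 x)
  intro i
  rw [norm_smul]
  exact mul_le_of_le_one_right (norm_nonneg _) (hu i)

theorem summable_smul (u : ι → E) (hu : ∀ i, ‖u i‖ ≤ 1) (x : lp (fun _ : ι => 𝕜) 1) :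
    Summable (fun i => x i • u i) := Summable.of_norm (summable_norm_smul u hu x)

omit [CompleteSpace E] in
theorem norm_tsum_smul_le (u : ι → E) (hu : ∀ i, ‖u i‖ ≤ 1) (x : lp (fun _ : ι => 𝕜) 1) :
    ‖∑' i, x i • u i‖ ≤ ‖x‖ := by
  rw [norm_l1]
  refine (norm_tsum_le_tsum_norm (summable_norm_smul u hu x)).trans ?_
  apply Summable.tsum_le_tsum _ (summable_norm_smul u hu x) (summable_l1 x)
  intro i
  rw [norm_smul]
  exact mul_le_of_le_one_right (norm_nonneg _) (hu i)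

/-- the universal property of `ℓ₁` -/
noncomputable def lift (u : ι → E) (hu : ∀ i, ‖u i‖ ≤ 1) : lp (fun _ : ι => 𝕜) 1 →L[𝕜] E :=
  LinearMap.mkContinuous
    { toFun := fun x => ∑' i, x i • u i
      map_add' := by
        intro x y
        rw [← (summable_smul u hu x).tsum_add (summable_smul u hu y)]
        congr 1
        ext i
        rw [lp.coeFn_add, Pi.add_apply, add_smul]
      map_smul' := by
        intro c x
        rw [RingHom.id_apply, ← (summable_smul u hu x).tsum_const_smul c]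
        congr 1
        ext i
        rw [lp.coeFn_smul, Pi.smul_apply, smul_eq_mul, mul_smul] }
    1 (fun x => by
      rw [one_mul]
      exact norm_tsum_smul_le u hu x)

theorem norm_lift_le (u : ι → E) (hu : ∀ i, ‖u i‖ ≤ 1) (x : lp (fun _ : ι => 𝕜) 1) :
    ‖lift u hu x‖ ≤ ‖x‖ := norm_tsum_smul_le u hu x

theorem lift_single [DecidableEq ι] (u : ι → E) (hu : ∀ i, ‖u i‖ ≤ 1) (i : ι) (c : 𝕜) :
    lift u hu (lp.single 1 i c) = c • u i := by
  show ∑' k, (lp.single 1 i c : lp (fun _ : ι => 𝕜) 1) k • u k = c • u i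
  rw [tsum_eq_single i]
  · rw [lp.single_apply_self]
  · intro k hk
    rw [lp.single_apply_ne _ _ _ hk, zero_smul]

end lift

variable (𝕜 : Type) [RCLike 𝕜]

/-- the space -/
abbrev X : Type := lp (fun _ : B => 𝕜) 1

open Classical in
/-- the basis vectors -/
noncomputable def e (b : B) : X 𝕜 := lp.single 1 b ((W b : ℝ) : 𝕜)

theorem norm_e (b : B) : ‖e 𝕜 b‖ = W b := by
  classical
  unfold e
  rw [lp.norm_single (by norm_num), RCLike.norm_ofReal, abs_of_pos (W_pos b)]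

/-- the images of the basis vectors -/
noncomputable def TB : B → X 𝕜
  | .root => 0
  | .y v j => e 𝕜 v - e 𝕜 (.w v j 0)
  | .w v j i => if i < 2 * dd (F v) then e 𝕜 (.w v j (i + 1)) else 0

theorem norm_TB (b : B) : ‖TB 𝕜 b‖ ≤ W b := by
  cases b with
  | root =>
    show ‖(0 : X 𝕜)‖ ≤ _
    rw [norm_zero]; exact (W_pos _).le
  | y v j =>
    refine (norm_sub_le _ _).trans ?_
    rw [norm_e, norm_e]
    have := Λ_nonneg (F v) j
    show W v + (1 / 2) ^ j ≤ W v + (1 / 2) ^ j + Λ (F v) j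
    linarith
  | w v j i =>
    show ‖if i < 2 * dd (F v) then e 𝕜 (.w v j (i + 1)) else 0‖ ≤ _
    split_ifs
    · rw [norm_e]
      exact le_rfl
    · rw [norm_zero]; exact (W_pos _).le

theorem norm_TB' (b : B) : ‖((W b : ℝ) : 𝕜)⁻¹ • TB 𝕜 b‖ ≤ 1 := by
  rw [norm_smul, norm_inv, RCLike.norm_ofReal, abs_of_pos (W_pos b), inv_mul_le_iff₀ (W_pos b),
    mul_one]
  exact norm_TB 𝕜 b

/-- the operator -/
noncomputable def T : X 𝕜 →L[𝕜] X 𝕜 := lift (fun b => ((W b : ℝ) : 𝕜)⁻¹ • TB 𝕜 b) (norm_TB' 𝕜)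

theorem T_e (b : B) : T 𝕜 (e 𝕜 b) = TB 𝕜 b := by
  classical
  unfold T e
  rw [lift_single, smul_smul, mul_inv_cancel₀, one_smul]
  exact_mod_cast (W_pos b).ne'

theorem func_norm {c : B → ℝ} (hc : ∀ b, |c b| ≤ W b) (b : B) :
    ‖(((c b / W b : ℝ) : 𝕜))‖ ≤ 1 := by
  rw [RCLike.norm_ofReal, abs_div, abs_of_pos (W_pos b)]
  exact div_le_one_of_le₀ (hc b) (W_pos b).le

/-- the functionals at time `0` -/
noncomputable def g (n : ℕ) : X 𝕜 →L[𝕜] 𝕜 :=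
  lift (fun b => (((F b n 0) / W b : ℝ) : 𝕜)) (func_norm 𝕜 (c := fun b => F b n 0) (fun b => (F_le b n).1))

/-- the functionals at time `n` -/
noncomputable def h (n : ℕ) : X 𝕜 →L[𝕜] 𝕜 :=
  lift (fun b => (((F b n n) / W b : ℝ) : 𝕜)) (func_norm 𝕜 (c := fun b => F b n n) (fun b => (F_le b n).2))

theorem g_e (n : ℕ) (b : B) : g 𝕜 n (e 𝕜 b) = ((F b n 0 : ℝ) : 𝕜) := by
  classical
  unfold g e
  rw [lift_single, smul_eq_mul, ← RCLike.ofReal_mul, mul_div_cancel₀ _ (W_pos b).ne']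

theorem h_e (n : ℕ) (b : B) : h 𝕜 n (e 𝕜 b) = ((F b n n : ℝ) : 𝕜) := by
  classical
  unfold h e
  rw [lift_single, smul_eq_mul, ← RCLike.ofReal_mul, mul_div_cancel₀ _ (W_pos b).ne']

theorem g_pow_e (n s : ℕ) (b : B) : g 𝕜 n (((1 + T 𝕜) ^ s) (e 𝕜 b)) = ((F b n s : ℝ) : 𝕜) := by
  induction s generalizing b with
  | zero => exact g_e 𝕜 n b
  | succ s ih =>
    rw [pow_succ]
    show g 𝕜 n (((1 + T 𝕜) ^ s) (e 𝕜 b + T 𝕜 (e 𝕜 b))) = _
    rw [map_add, map_add, ih, T_e]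
    cases b with
    | root =>
      show ((F .root n s : ℝ) : 𝕜) + g 𝕜 n (((1 + T 𝕜) ^ s) 0) = _
      rw [map_zero, map_zero, add_zero]
      rfl
    | y v j =>
      show ((F (.y v j) n s : ℝ) : 𝕜) + g 𝕜 n (((1 + T 𝕜) ^ s) (e 𝕜 v - e 𝕜 (.w v j 0))) = _
      rw [map_sub, map_sub, ih, ih, F_y]
      push_cast
      ring
    | w v j i =>
      show ((F (.w v j i) n s : ℝ) : 𝕜) + g 𝕜 n (((1 + T 𝕜) ^ s)
        (if i < 2 * dd (F v) then e 𝕜 (.w v j (i + 1)) else 0)) = _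
      split_ifs with hi
      · rw [ih, F_w]
        push_cast
        ring
      · rw [map_zero, map_zero, F_w, F_w_zero v j (i + 1) n s (by omega)]
        push_cast
        ring

/-- the basis vectors span a dense subspace -/
theorem mem_closure_span (x : X 𝕜) :
    x ∈ closure (Submodule.span 𝕜 (Set.range (e 𝕜)) : Set (X 𝕜)) := by
  classical
  have hs := lp.hasSum_single (p := 1) (by norm_num) x
  refine mem_closure_of_tendsto hs (Eventually.of_forall fun s => ?_)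
  apply Submodule.sum_mem
  intro b _
  have hW : ((W b : ℝ) : 𝕜) ≠ 0 := by exact_mod_cast (W_pos b).ne'
  have : (lp.single 1 b (x b) : X 𝕜) = (x b * ((W b : ℝ) : 𝕜)⁻¹) • e 𝕜 b := by
    unfold e
    rw [← lp.single_smul, smul_eq_mul, mul_assoc, inv_mul_cancel₀ hW, mul_one]
  rw [this]
  exact Submodule.smul_mem _ _ (Submodule.subset_span ⟨b, rfl⟩)

theorem g_pow (n : ℕ) (x : X 𝕜) : g 𝕜 n (((1 + T 𝕜) ^ n) x) = h 𝕜 n x := by
  have hcl : IsClosed {x : X 𝕜 | g 𝕜 n (((1 + T 𝕜) ^ n) x) = h 𝕜 n x} :=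
    isClosed_eq ((g 𝕜 n).continuous.comp ((1 + T 𝕜) ^ n).continuous) (h 𝕜 n).continuous
  have hsub : (Submodule.span 𝕜 (Set.range (e 𝕜)) : Set (X 𝕜)) ⊆
      {x : X 𝕜 | g 𝕜 n (((1 + T 𝕜) ^ n) x) = h 𝕜 n x} := by
    intro z hz
    induction hz using Submodule.span_induction with
    | mem z hz =>
      obtain ⟨b, rfl⟩ := hz
      show g 𝕜 n (((1 + T 𝕜) ^ n) (e 𝕜 b)) = h 𝕜 n (e 𝕜 b)
      rw [g_pow_e, h_e]
    | zero => show g 𝕜 n (((1 + T 𝕜) ^ n) 0) = h 𝕜 n 0; rw [map_zero, map_zero, map_zero]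
    | add y z _ _ hy hz =>
      show g 𝕜 n (((1 + T 𝕜) ^ n) (y + z)) = h 𝕜 n (y + z)
      rw [map_add, map_add, map_add, hy, hz]
    | smul c z _ hz =>
      show g 𝕜 n (((1 + T 𝕜) ^ n) (c • z)) = h 𝕜 n (c • z)
      rw [map_smul, map_smul, map_smul, hz]
  exact (closure_minimal hsub hcl) (mem_closure_span 𝕜 x)

theorem norm_h_le (n : ℕ) (x : X 𝕜) : ‖h 𝕜 n x‖ ≤ ‖x‖ := norm_lift_le _ _ x

theorem norm_g_le (n : ℕ) (x : X 𝕜) : ‖g 𝕜 n x‖ ≤ ‖x‖ := norm_lift_le _ _ x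

/-- `(1 + T) ^ n` does not map a small ball into a ball around the root -/
theorem far (n : ℕ) (x : X 𝕜) (hx : ‖x‖ < 1 / 2) : 1 / 2 < ‖((1 + T 𝕜) ^ n) x - e 𝕜 .root‖ := by
  by_contra hcon
  rw [not_lt] at hcon
  have h1 := norm_g_le 𝕜 n (((1 + T 𝕜) ^ n) x - e 𝕜 .root)
  rw [map_sub, g_pow, g_e, F_root] at h1
  have h2 := norm_h_le 𝕜 n x
  have h3 : ‖((1 : ℝ) : 𝕜)‖ ≤ ‖h 𝕜 n x - ((1 : ℝ) : 𝕜)‖ + ‖h 𝕜 n x‖ := by
    have := norm_sub_le (h 𝕜 n x) (h 𝕜 n x - ((1 : ℝ) : 𝕜))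
    rw [sub_sub_cancel] at this
    linarith
  rw [RCLike.norm_ofReal, abs_one] at h3
  linarith

/-- the range is dense -/
theorem dense_range : DenseRange (T 𝕜) := by
  intro x
  have hsub : (Submodule.span 𝕜 (Set.range (e 𝕜)) : Set (X 𝕜)) ⊆ closure (Set.range (T 𝕜)) := by
    have hR : closure (Set.range (T 𝕜)) =
        ((LinearMap.range (T 𝕜 : X 𝕜 →ₗ[𝕜] X 𝕜)).topologicalClosure : Set (X 𝕜)) := by
      rw [Submodule.topologicalClosure_coe]
      congr 1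
    rw [hR]
    rw [SetLike.coe_subset_coe, Submodule.span_le]
    rintro _ ⟨b, rfl⟩
    rw [SetLike.mem_coe, ← SetLike.mem_coe, ← hR]
    rw [Metric.mem_closure_iff]
    intro ε hε
    obtain ⟨j, hj⟩ := exists_pow_lt_of_lt_one hε (by norm_num : (1 / 2 : ℝ) < 1)
    refine ⟨T 𝕜 (e 𝕜 (.y b j)), ⟨_, rfl⟩, ?_⟩
    rw [T_e, dist_eq_norm]
    show ‖e 𝕜 b - (e 𝕜 b - e 𝕜 (.w b j 0))‖ < ε
    rw [sub_sub_cancel, norm_e]
    exact hj
  have := closure_minimal hsub isClosed_closure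
  exact this (mem_closure_span 𝕜 x)

/-- the generalized kernel as a submodule -/
def GKer : Submodule 𝕜 (X 𝕜) where
  carrier := {x | ∃ n : ℕ, ((T 𝕜) ^ n) x = 0}
  zero_mem' := ⟨0, by simp⟩
  add_mem' := by
    rintro x y ⟨n, hn⟩ ⟨m, hm⟩
    refine ⟨n + m, ?_⟩
    rw [map_add]
    have h1 : ((T 𝕜) ^ (n + m)) x = 0 := by
      rw [add_comm, pow_add]
      show ((T 𝕜) ^ m) (((T 𝕜) ^ n) x) = 0
      rw [hn, map_zero]
    have h2 : ((T 𝕜) ^ (n + m)) y = 0 := by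
      rw [pow_add]
      show ((T 𝕜) ^ n) (((T 𝕜) ^ m) y) = 0
      rw [hm, map_zero]
    rw [h1, h2, add_zero]
  smul_mem' := by
    rintro c x ⟨n, hn⟩
    exact ⟨n, by rw [map_smul, hn, smul_zero]⟩

theorem mem_GKer_of_T {x : X 𝕜} (hx : T 𝕜 x ∈ GKer 𝕜) : x ∈ GKer 𝕜 := by
  obtain ⟨n, hn⟩ := hx
  refine ⟨n + 1, ?_⟩
  rw [pow_succ]
  exact hn

theorem e_mem_GKer (b : B) : e 𝕜 b ∈ GKer 𝕜 := by
  have hw : ∀ (v : B) (j k i : ℕ), 2 * dd (F v) ≤ i + k → e 𝕜 (.w v j i) ∈ GKer 𝕜 := by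
    intro v j k
    induction k with
    | zero =>
      intro i hi
      apply mem_GKer_of_T
      rw [T_e]
      show (if i < 2 * dd (F v) then e 𝕜 (.w v j (i + 1)) else 0) ∈ GKer 𝕜
      rw [if_neg (by omega)]
      exact Submodule.zero_mem _
    | succ k ih =>
      intro i hi
      apply mem_GKer_of_T
      rw [T_e]
      show (if i < 2 * dd (F v) then e 𝕜 (.w v j (i + 1)) else 0) ∈ GKer 𝕜
      split_ifs
      · exact ih (i + 1) (by omega)
      · exact Submodule.zero_mem _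
  induction b with
  | root =>
    apply mem_GKer_of_T
    rw [T_e]
    exact Submodule.zero_mem _
  | y v j ih =>
    apply mem_GKer_of_T
    rw [T_e]
    exact Submodule.sub_mem _ ih (hw v j (2 * dd (F v)) 0 (by omega))
  | w v j i _ => exact hw v j (2 * dd (F v)) i (by omega)

theorem dense_GKer : Dense {x : X 𝕜 | ∃ n : ℕ, 1 ≤ n ∧ ((T 𝕜) ^ n) x = 0} := by
  intro x
  have hsub : (Submodule.span 𝕜 (Set.range (e 𝕜)) : Set (X 𝕜)) ⊆
      {x : X 𝕜 | ∃ n : ℕ, 1 ≤ n ∧ ((T 𝕜) ^ n) x = 0} := by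
    intro z hz
    have h1 : z ∈ GKer 𝕜 := by
      have : Submodule.span 𝕜 (Set.range (e 𝕜)) ≤ GKer 𝕜 := by
        rw [Submodule.span_le]
        rintro _ ⟨b, rfl⟩
        exact e_mem_GKer 𝕜 b
      exact this hz
    obtain ⟨n, hn⟩ := h1
    refine ⟨n + 1, by omega, ?_⟩
    rw [pow_succ']
    show T 𝕜 (((T 𝕜) ^ n) z) = 0
    rw [hn, map_zero]
  exact closure_mono hsub (mem_closure_span 𝕜 x)

theorem separable : TopologicalSpace.SeparableSpace (X 𝕜) := by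
  rw [← TopologicalSpace.isSeparable_univ_iff]
  have h1 : TopologicalSpace.IsSeparable (Submodule.span 𝕜 (Set.range (e 𝕜)) : Set (X 𝕜)) := by
    apply TopologicalSpace.IsSeparable.span
    exact (Set.countable_range _).isSeparable
  exact h1.closure.mono (fun x _ => mem_closure_span 𝕜 x)

theorem not_hypercyclic (x : X 𝕜) : ¬ Dense (Set.range (fun n : ℕ => ((1 + T 𝕜) ^ n) x)) := by
  classical
  intro hd
  haveI : Nontrivial (X 𝕜) := ⟨⟨e 𝕜 .root, 0, by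
    intro h0
    have := norm_e 𝕜 .root
    rw [h0, norm_zero] at this
    exact absurd this (W_pos .root).ne⟩⟩
  obtain ⟨_, ⟨i, rfl⟩, hb⟩ := hd.exists_mem_open (Metric.isOpen_ball (x := (0 : X 𝕜)) (ε := (1 / 2 : ℝ)))
    ⟨0, Metric.mem_ball_self (by norm_num)⟩
  rw [mem_ball_zero_iff] at hb
  haveI : ∀ z : X 𝕜, (𝓝[≠] z).NeBot := fun z => Module.punctured_nhds_neBot 𝕜 (X 𝕜) z
  have hd2 := hd.sdiff_finset ((Finset.range (i + 1)).image (fun n : ℕ => ((1 + T 𝕜) ^ n) x))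
  obtain ⟨_, ⟨⟨j, rfl⟩, hj⟩, hb2⟩ := hd2.exists_mem_open
    (Metric.isOpen_ball (x := e 𝕜 .root) (ε := (1 / 2 : ℝ))) ⟨_, Metric.mem_ball_self (by norm_num)⟩
  have hij : i < j := by
    by_contra hle
    apply hj
    rw [Finset.mem_coe, Finset.mem_image]
    exact ⟨j, Finset.mem_range.2 (by omega), rfl⟩
  have h1 := far 𝕜 (j - i) (((1 + T 𝕜) ^ i) x) hb
  have h2 : ((1 + T 𝕜) ^ (j - i)) (((1 + T 𝕜) ^ i) x) = ((1 + T 𝕜) ^ j) x := by
    have : (1 + T 𝕜) ^ j = (1 + T 𝕜) ^ (j - i) * (1 + T 𝕜) ^ i := by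
      rw [← pow_add]
      congr 1
      omega
    rw [this]
    rfl
  rw [h2] at h1
  rw [Metric.mem_ball, dist_eq_norm] at hb2
  linarith

end Pool.Agent.X109.GK
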